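import Pool.Agent.P.MP_65d1df_lc.Game

set_option autoImplicit false

namespace Pool.Agent.Results.MP_65d1df_lc.Subpolynomial

open Pool.Agent.P.MP_65d1df_lc Finset

lemma aux (c : ℕ) : 8 * (c + 8) + 26 ≤ 2 ^ (c + 7) := by
  induction c with
  | zero => norm_num
  | succ c ih => rw [show c + 1 + 7 = c + 7 + 1 by ring, pow_succ]; omega

lemma exists_exp (m l u : ℕ) (hl : 1 ≤ l) (h1 : 2 ^ (l - 1) ≤ m + 1) (h2 : m + 1 ≤ 2 ^ l)
    (hu : 33 * l ^ 2 ≤ 2 ^ u) (hu1 : 1 ≤ u) (hul : 4 * u + 2 ≤ l) :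
    ∃ k : ℕ, (k : ℝ) ≤ 4 * Real.sqrt (l * u) ∧
      ∃ B : (Fin (m + 1) → Bool) → Finset (Fin (m + 1)), (∀ w, (B w).card ≤ 2 ^ k) ∧
        Win B m (fun _ => false) univ := by
  set s := Nat.sqrt (l / u) with hs
  have s1 : s * s * u ≤ l := le_trans (Nat.mul_le_mul_right _ (Nat.sqrt_le _))
    (Nat.div_mul_le_self _ _)
  have s2 : l < (s + 1) * (s + 1) * u := by
    have := Nat.lt_succ_sqrt (l / u)
    exact (Nat.div_lt_iff_lt_mul hu1).1 this
  have s3 : 1 ≤ s := by
    rw [hs, Nat.le_sqrt, Nat.le_div_iff_mul_le hu1]; omega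
  set w := (l - 1) / (s + 1) with hw
  have w1 : w * (s + 1) ≤ l - 1 := Nat.div_mul_le_self _ _
  have w2 : l - 1 < (w + 1) * (s + 1) := by
    rw [← Nat.div_lt_iff_lt_mul (by omega)]; omega
  have w3 : u ≤ w := by
    rw [hw, Nat.le_div_iff_mul_le (by omega)]
    obtain ⟨j, hj⟩ : ∃ j, l = j + 1 := ⟨l - 1, by omega⟩
    rw [hj, Nat.add_sub_cancel]
    refine Nat.le_of_lt_succ (lt_of_mul_self_lt_mul_self₀ (by omega) ?_)
    have a : (s + 1) * (s + 1) ≤ 4 * (s * s) := by nlinarith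
    calc u * (s + 1) * (u * (s + 1)) = u * ((s + 1) * (s + 1) * u) := by ring
      _ ≤ u * (4 * (s * s) * u) := by gcongr
      _ = 4 * u * (s * s * u) := by ring
      _ ≤ 4 * u * l := by gcongr
      _ < l * l := by
        refine Nat.mul_lt_mul_of_lt_of_le (by omega) le_rfl (by omega)
      _ = (j + 1) * (j + 1) := by rw [hj]
  have hws : w * s + w ≤ l - 1 := by rw [← Nat.mul_succ]; exact w1
  have hws2 : l ≤ w * s + (w + s + 1) := by
    have : (w + 1) * (s + 1) = w * s + (w + s + 1) := by ring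
    omega
  obtain ⟨B, hB, hwin⟩ := good_pow (U := Fin (m + 1)) (l := l) (θ := 2 ^ w) (t := 2 ^ u) hl
    (by simpa using h2) (le_trans (by nlinarith) hu) (Nat.pow_le_pow_right (by norm_num) w3) s
    (2 ^ (w + s + 1)) (Nat.pow_le_pow_right (by norm_num) (by omega)) univ (by
      rw [card_univ, Fintype.card_fin, ← pow_mul, ← pow_add]
      exact h2.trans (Nat.pow_le_pow_right (by norm_num) (by omega)))
  have he : 1 ≤ (2 ^ w) ^ s := Nat.one_le_pow _ _ (by positivity)
  have hle : (2 ^ w) ^ s ≤ m + 1 := by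
    rw [← pow_mul]
    exact (Nat.pow_le_pow_right (by norm_num) (by omega)).trans h1
  refine ⟨w + s + 1 + u * s, ?_, B, fun v => (hB v).trans (by rw [← pow_mul, ← pow_add]), ?_⟩
  · have a1 : w * w ≤ l * u := by
      refine Nat.le_of_mul_le_mul_right (c := l) ?_ (by omega)
      calc w * w * l ≤ w * w * ((s + 1) * (s + 1) * u) := by gcongr
        _ = (w * (s + 1)) * (w * (s + 1)) * u := by ring
        _ ≤ l * l * u := by gcongr <;> omega
        _ = l * u * l := by ring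
    have a2 : (u * s) * (u * s) ≤ l * u := by
      calc (u * s) * (u * s) = (s * s * u) * u := by ring
        _ ≤ l * u := by gcongr
    have a3 : s * s ≤ l * u := by nlinarith
    have b : ∀ a : ℕ, a * a ≤ l * u → (a : ℝ) ≤ Real.sqrt (l * u) := fun a ha =>
      Real.le_sqrt_of_sq_le (by rw [sq]; exact_mod_cast ha)
    have b1 := b _ a1
    have b2 := b _ a2
    have b3 := b _ a3
    have b4 : (1 : ℝ) ≤ s := by exact_mod_cast s3
    push_cast at b2 ⊢
    linarith
  · have := win_of_forall_subset (B := B) (n := (2 ^ w) ^ s - 1) (w := fun _ => false)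
      (m + 1 - (2 ^ w) ^ s) (R := univ) (by rw [card_univ, Fintype.card_fin]; omega)
      fun R' hR' hc => hwin R' hR' (by omega)
    rwa [show (2 ^ w) ^ s - 1 + (m + 1 - (2 ^ w) ^ s) = m by omega] at this

lemma clog_le (n : ℕ) (hn : 2 ≤ n) : (Nat.clog 2 n : ℝ) ≤ 2 * Real.log n + 1 := by
  have h1 : 2 ^ (Nat.clog 2 n - 1) < n := Nat.pow_pred_clog_lt_self (by norm_num) (by omega)
  have h2 : 1 ≤ Nat.clog 2 n := Nat.clog_pos (by norm_num) hn
  have h3 : ((2 : ℝ)) ^ (Nat.clog 2 n - 1) ≤ n := by exact_mod_cast h1.le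
  have h4 := Real.log_le_log (by positivity) h3
  rw [Real.log_pow, Nat.cast_sub h2] at h4
  have h5 := Real.log_two_gt_d9
  have h6 : (1 : ℝ) ≤ Nat.clog 2 n := by exact_mod_cast h2
  push_cast at h4
  nlinarith

/-- For all large `n = m + 1` the game `G_n` has a protocol of cost at most
`exp (K √(log n · log log n))`. -/
theorem result : ∃ K : ℝ, ∃ N : ℕ, ∀ m : ℕ, N ≤ m →
    ∃ A : List (Fin (m + 1)) → Bool,
    ∃ B : (Fin (m + 1) → Bool) → Finset (Fin (m + 1)),
      (∀ σ : Equiv.Perm (Fin (m + 1)), ∀ b : Bool,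
        σ (Fin.last m) ∈ B (fun j : Fin (m + 1) =>
          if σ.symm j = Fin.last m then b
          else A (List.map σ ((List.finRange (m + 1)).take ((σ.symm j).val + 1))))) ∧
      ∀ v : Fin (m + 1) → Bool, ((B v).card : ℝ) ≤
        Real.exp (K * Real.sqrt (Real.log (m + 1) * Real.log (Real.log (m + 1)))) := by
  refine ⟨40, 2 ^ 200, fun m hm => ?_⟩
  set l := Nat.clog 2 (m + 1) with hl
  have hl1 : 200 < l := by
    rw [hl, Nat.lt_clog_iff_pow_lt (by norm_num)]; omega
  set c := Nat.clog 2 l with hc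
  have hc1 : 7 < c := by
    rw [hc, Nat.lt_clog_iff_pow_lt (by norm_num)]; omega
  have hc2 : 2 ^ (c - 1) < l := Nat.pow_pred_clog_lt_self (by norm_num) (by omega)
  have hc3 : l ≤ 2 ^ c := Nat.le_pow_clog (by norm_num) _
  have hc4 := aux (c - 8)
  rw [show c - 8 + 7 = c - 1 by omega, show c - 8 + 8 = c by omega] at hc4
  obtain ⟨k, hk, B, hB, hwin⟩ := exists_exp m l (2 * c + 6) (by omega)
    (Nat.pow_pred_clog_lt_self (by norm_num) (by omega)).le (Nat.le_pow_clog (by norm_num) _)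
    (by
      have : l ^ 2 ≤ (2 ^ c) ^ 2 := Nat.pow_le_pow_left hc3 2
      rw [pow_add, mul_comm 2 c, pow_mul]
      omega) (by omega) (by omega)
  obtain ⟨A, hA⟩ := exists_protocol hwin
  refine ⟨A, B, hA, fun v => ?_⟩
  have e1 := clog_le (m + 1) (by omega)
  have e2 := clog_le l (by omega)
  rw [← hl] at e1
  rw [← hc] at e2
  push_cast at e1 hk
  set L := Real.log ((m : ℝ) + 1) with hL
  have e3 : (200 : ℝ) < l := by exact_mod_cast hl1
  have e4 : (l : ℝ) ≤ 3 * L := by linarith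
  have e5 : Real.log l ≤ Real.log 3 + Real.log L := by
    rw [← Real.log_mul (by norm_num) (by linarith)]
    exact Real.log_le_log (by linarith) e4
  have e6 : Real.log 3 ≤ 2 := by
    have := Real.log_le_sub_one_of_pos (show (0 : ℝ) < 3 by norm_num)
    linarith
  have e7 : 1 ≤ Real.log L := by
    rw [Real.le_log_iff_exp_le (by linarith)]
    have := Real.exp_one_lt_d9
    linarith
  have e8 : (l : ℝ) * (2 * c + 6) ≤ 10 ^ 2 * (L * Real.log L) := by
    have : (2 * c + 6 : ℝ) ≤ 20 * Real.log L := by linarith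
    calc (l : ℝ) * (2 * c + 6) ≤ (3 * L) * (20 * Real.log L) := by gcongr; linarith
      _ ≤ _ := by nlinarith
  have e9 := Real.sqrt_le_sqrt e8
  rw [Real.sqrt_mul (x := 10 ^ 2) (by norm_num), Real.sqrt_sq (by norm_num)] at e9
  have e10 : ((B v).card : ℝ) ≤ 2 ^ k := by exact_mod_cast hB v
  refine e10.trans ?_
  have e11 : (2 : ℝ) ^ k ≤ Real.exp 1 ^ k := by
    refine pow_le_pow_left₀ (by norm_num) ?_ _
    have := Real.exp_one_gt_d9
    linarith
  refine e11.trans ?_
  rw [← Real.exp_nat_mul, mul_one]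
  exact Real.exp_le_exp.2 (by linarith)

end Pool.Agent.Results.MP_65d1df_lc.Subpolynomial
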